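import Pool.Agent.helper57.LE.PCa
import Pool.Agent.helper37.LE.MS
import Pool.Agent.helper73.LE.DC

/-!
# The critical probability
-/

open Finset Classical MeasureTheory Filter Topology

namespace Pool.Agent.helper66.LE

section PC

theorem pcrit_eq {d : ℕ} (hd : 1 ≤ d) (h : pc d < 1) : pcrit d = pc d := by
  have _ := hd
  exact pcrit_eq_of h (fun p h0 h1 => law_prob h0 h1) (fun p h0 h1 Λ A => law_opn h0 h1 Λ A)
    (fun q hq hq1 => theta_ge hq hq1)

end PC

end Pool.Agent.helper66.LE
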