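import Pool.Agent.helper57.LE.S2
import Pool.Agent.helper73.LE.BX
import Pool.Agent.helper73.LE.TK

/-!
# The critical probability: the part which does not use the other modules
-/

open Finset Classical MeasureTheory Filter Topology

namespace Pool.Agent.helper66.LE

section PC
variable {d : ℕ}

theorem PC_mem_uv {v : Fin d → ℤ} (h : ∑ i, |v i| = 1) : v ∈ uv d ℤ := by
  rw [mem_uv]
  obtain ⟨i, hi⟩ : ∃ i, v i ≠ 0 := by
    by_contra hcon
    push Not at hcon
    simp [hcon] at h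
  refine ⟨i, ?_⟩
  have h1 : |v i| + ∑ j ∈ univ.erase i, |v j| = 1 := by
    rw [Finset.add_sum_erase univ (fun j => |v j|) (Finset.mem_univ i)]
    exact h
  have h2 : 1 ≤ |v i| := Int.one_le_abs hi
  have h3 : 0 ≤ ∑ j ∈ univ.erase i, |v j| := Finset.sum_nonneg fun _ _ => abs_nonneg _
  have h4 : ∑ j ∈ univ.erase i, |v j| = 0 := by omega
  have h5 : |v i| = 1 := by omega
  rw [Finset.sum_eq_zero_iff_of_nonneg fun _ _ => abs_nonneg _] at h4
  have h6 : ∀ j, j ≠ i → v j = 0 := fun j hj => by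
    have := h4 j (Finset.mem_erase.2 ⟨hj, Finset.mem_univ _⟩)
    simpa using this
  rcases (abs_eq (by norm_num : (0 : ℤ) ≤ 1)).1 h5 with h7 | h7
  · left
    funext j
    by_cases hj : j = i
    · subst hj; simp [h7]
    · rw [h6 j hj, Pi.single_eq_of_ne hj]
  · right
    funext j
    by_cases hj : j = i
    · subst hj; simp [h7]
    · rw [h6 j hj, Pi.single_eq_of_ne hj]

theorem PC_mem_box {n : ℕ} {x : Fin d → ℤ} : x ∈ box d n ↔ ∀ i, |x i| ≤ n := by
  unfold box
  rw [Fintype.mem_piFinset]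
  refine forall_congr' fun i => ?_
  rw [Finset.mem_Icc, abs_le]

theorem PC_zero_mem_box (n : ℕ) : (0 : Fin d → ℤ) ∈ box d n := PC_mem_box.2 fun i => by simp

theorem PC_edge {n : ℕ} {y z : Fin d → ℤ} (hy : y ∈ box d n) (hz : z ∈ box d n) (h : (zd d).Adj y z) :
    s(y, z) ∈ zE d (box d n) := by
  unfold zE
  refine Finset.mem_image.2 ⟨(y, z - y), ?_, ?_⟩
  · rw [Finset.mem_filter, Finset.mem_product]
    refine ⟨⟨hy, PC_mem_uv ?_⟩, ?_⟩
    · have h2 : ∑ i, |y i - z i| = 1 := h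
      rw [← h2]
      refine Finset.sum_congr rfl fun i _ => ?_
      show |(z - y) i| = |y i - z i|
      rw [Pi.sub_apply, abs_sub_comm]
    · simpa using hz
  · simp

theorem PC_step {y z : Fin d → ℤ} (h : (zd d).Adj y z) (i : Fin d) : |z i| ≤ |y i| + 1 := by
  have h2 : ∑ i, |y i - z i| = 1 := h
  have h3 : |y i - z i| ≤ ∑ i, |y i - z i| :=
    Finset.single_le_sum (f := fun i => |y i - z i|) (fun _ _ => abs_nonneg _) (Finset.mem_univ i)
  have h4 : |z i| ≤ |y i| + |y i - z i| := by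
    have := abs_sub_abs_le_abs_sub (z i) (y i)
    rw [abs_sub_comm (z i) (y i)] at this
    linarith
  linarith

/-- the event in `theta`. -/
def PC_ev (d n : ℕ) (F : Finset (Sym2 (Fin d → ℤ))) : Prop :=
  ∃ x ∈ box d n, (∃ i, |x i| = n) ∧ Conn F 0 x

/-- the cluster reaches distance `n`. -/
def PC_C (d n : ℕ) : Set (Env d) := {ω | ∃ x ∈ zcl ω, ∃ i, (n : ℤ) ≤ |x i|}

theorem PC_walk {n : ℕ} {ω : Env d} (hno : ¬ PC_ev d n (opn ω (zE d (box d n)))) {y x : Fin d → ℤ}
    (γ : (zd d).Walk y x) : (∀ e (h : e ∈ γ.edges), ω ⟨e, γ.edges_subset_edgeSet h⟩ = 0) →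
      y ∈ box d n → Conn (opn ω (zE d (box d n))) 0 y → x ∈ box d n ∧ Conn (opn ω (zE d (box d n))) 0 x := by
  induction γ with
  | nil => exact fun _ h1 h2 => ⟨h1, h2⟩
  | @cons a b c h γ' ih =>
    intro hw hb hc
    have hint : ∀ i, |a i| ≠ n := fun i hi => hno ⟨a, hb, ⟨i, hi⟩, hc⟩
    have hbb : b ∈ box d n := PC_mem_box.2 fun i => by
      have h1 := PC_mem_box.1 hb i
      have h2 := PC_step h i
      have h3 := hint i
      omega
    have he : s(a, b) ∈ zE d (box d n) := PC_edge hb hbb h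
    refine ih (fun e he => ?_) hbb ?_
    · exact hw e (by rw [SimpleGraph.Walk.edges_cons]; exact List.mem_cons_of_mem _ he)
    · refine hc.trans (conn_of_mem ?_)
      unfold opn
      rw [Finset.mem_filter]
      refine ⟨he, h, ?_⟩
      exact hw s(a, b) (by rw [SimpleGraph.Walk.edges_cons]; exact List.mem_cons_self)

theorem PC_zero_mem (ω : Env d) : (0 : Fin d → ℤ) ∈ zcl ω :=
  ⟨SimpleGraph.Walk.nil, fun e he => by simp at he⟩

theorem PC_closed {ω : Env d} {u w : Fin d → ℤ} (hu : u ∈ zcl ω) (h : s(u, w) ∈ (zd d).edgeSet)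
    (h0 : ω ⟨s(u, w), h⟩ = 0) : w ∈ zcl ω := by
  obtain ⟨γ, hγ⟩ := hu
  have hadj : (zd d).Adj u w := h
  refine ⟨γ.concat hadj, ?_⟩
  intro e he
  have he' : e ∈ γ.edges ∨ e = s(u, w) := by
    rw [SimpleGraph.Walk.edges_concat, List.concat_eq_append, List.mem_append, List.mem_singleton] at he
    exact he
  rcases he' with he' | rfl
  · exact hγ e he'
  · exact h0

theorem PC_conn_zcl {ω : Env d} {Λ : Finset (Fin d → ℤ)} {x : Fin d → ℤ}
    (h : Conn (opn ω (zE d Λ)) 0 x) : x ∈ zcl ω := by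
  refine Conn.mem_of_closed (S := zcl ω) ?_ h (PC_zero_mem ω)
  intro u w huw hu
  unfold opn at huw
  rw [Finset.mem_filter] at huw
  obtain ⟨-, h1, h2⟩ := huw
  exact PC_closed hu h1 h2

theorem PC_ev_iff {n : ℕ} (ω : Env d) : PC_ev d n (opn ω (zE d (box d n))) ↔ ω ∈ PC_C d n := by
  constructor
  · rintro ⟨x, -, ⟨i, hi⟩, hc⟩
    exact ⟨x, PC_conn_zcl hc, i, hi.ge⟩
  · rintro ⟨x, ⟨γ, hγ⟩, i, hi⟩
    by_contra hno
    obtain ⟨h1, h2⟩ := PC_walk hno γ hγ (PC_zero_mem_box n) (conn_refl _ _)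
    exact hno ⟨x, h1, ⟨i, le_antisymm (PC_mem_box.1 h1 i) hi⟩, h2⟩

theorem PC_infinite : {ω : Env d | (zcl ω).Infinite} = ⋂ n, PC_C d n := by
  ext ω
  rw [Set.mem_iInter, Set.mem_ofPred_eq]
  constructor
  · intro h n
    by_contra hcon
    have hsub : zcl ω ⊆ (box d n : Finset (Fin d → ℤ)) := by
      intro x hx
      rw [Finset.mem_coe, PC_mem_box]
      intro i
      by_contra hi
      exact hcon ⟨x, hx, i, by omega⟩
    exact h ((Finset.finite_toSet _).subset hsub)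
  · intro h hfin
    obtain ⟨M, hM⟩ : ∃ M : ℕ, ∀ x ∈ zcl ω, ∀ i, |x i| < M := by
      refine ⟨(∑ x ∈ hfin.toFinset, ∑ i, (x i).natAbs) + 1, fun x hx i => ?_⟩
      have h1 : (x i).natAbs ≤ ∑ i, (x i).natAbs :=
        Finset.single_le_sum (f := fun i => (x i).natAbs) (fun _ _ => Nat.zero_le _) (Finset.mem_univ i)
      have h2 : ∑ i, (x i).natAbs ≤ ∑ x ∈ hfin.toFinset, ∑ i, (x i).natAbs :=
        Finset.single_le_sum (f := fun x : Fin d → ℤ => ∑ i, (x i).natAbs) (fun _ _ => Nat.zero_le _)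
          (hfin.mem_toFinset.2 hx)
      rw [Int.abs_eq_natAbs]
      have h3 : (x i).natAbs < (∑ x ∈ hfin.toFinset, ∑ i, (x i).natAbs) + 1 :=
        Nat.lt_succ_of_le (h1.trans h2)
      exact_mod_cast h3
    obtain ⟨x, hx, i, hi⟩ := h M
    have := hM x hx i
    omega

theorem PC_anti : Antitone (fun n => PC_C d n) := by
  intro m n hmn ω h
  obtain ⟨x, hx, i, hi⟩ := h
  exact ⟨x, hx, i, le_trans (by exact_mod_cast hmn) hi⟩

theorem PC_theta_nonneg {q : ℝ} (h0 : 0 ≤ q) (h1 : q ≤ 1) (n : ℕ) : 0 ≤ theta d n q := Pr_nonneg h0 h1 _ _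

/-- the sum of the `theta` is at most the susceptibility. -/
theorem PC_sum {q : ℝ} (h0 : 0 ≤ q) (h : q < pc d) :
    ∃ X : ℝ, ∀ N : ℕ, ∑ n ∈ Finset.Icc 1 N, theta d n q ≤ X := by
  have h1 : q ≤ 1 := h.le.trans (pc_le_one d)
  obtain ⟨X, L₁, hX⟩ := chi_bdd h0 h
  refine ⟨X, fun N => ?_⟩
  obtain ⟨L₂, hL₂⟩ := box_torus d (box d N)
  obtain ⟨L₃, hL₃⟩ := S2_inj d (box d N)
  set L := L₁ + L₂ + L₃ + 1 with hL
  have : NeZero L := ⟨by omega⟩
  have hX' := hX L (by omega)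
  obtain ⟨-, hbox⟩ := hL₂ L (by omega) q h0 h1
  have hinj := hL₃ L (by omega)
  refine le_trans ?_ hX'
  -- the connection probabilities in the big box
  set P : (Fin d → ℤ) → ℝ := fun x => Pr q (zE d (box d N)) (fun F => Conn F 0 x) with hP
  have hPn : ∀ x, 0 ≤ P x := fun x => Pr_nonneg h0 h1 _ _
  have hPt : ∀ x ∈ box d N, P x ≤ tt d L q (S2_red d L x) := by
    intro x hx
    have h2 := hbox 0 x hx
    refine le_trans (le_of_eq ?_) (h2.trans (le_of_eq ?_))
    · refine Pr_congr fun F hF => ?_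
      exact (PT_zero_iff hF _ _).symm
    · unfold tt tau
      refine Pr_congr fun F hF => ?_
      exact PT_zero_iff hF _ _
  have hsum : ∑ x ∈ box d N, P x ≤ chi d L q := by
    refine (Finset.sum_le_sum hPt).trans ?_
    have h3 : ∑ x ∈ box d N, tt d L q (S2_red d L x) = ∑ y ∈ (box d N).image (S2_red d L), tt d L q y :=
      (Finset.sum_image fun x hx y hy hxy => hinj hx hy hxy).symm
    rw [h3]
    exact Finset.sum_le_sum_of_subset_of_nonneg (Finset.subset_univ _) fun _ _ _ => tau_nonneg h0 h1 _ _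
  refine le_trans ?_ hsum
  have hθ : ∀ n ∈ Finset.Icc 1 N, theta d n q ≤ ∑ x ∈ (box d N).filter (fun x => x ∈ box d n ∧ ∃ i, |x i| = n), P x := by
    intro n hn
    rw [Finset.mem_Icc] at hn
    have hsub : box d n ⊆ box d N := fun x hx => PC_mem_box.2 fun i => (PC_mem_box.1 hx i).trans (by
      exact_mod_cast hn.2)
    have hE : zE d (box d n) ⊆ zE d (box d N) := by
      intro e he
      unfold zE at he ⊢
      obtain ⟨p, hp, rfl⟩ := Finset.mem_image.1 he
      rw [Finset.mem_filter, Finset.mem_product] at hp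
      refine Finset.mem_image_of_mem _ ?_
      rw [Finset.mem_filter, Finset.mem_product]
      exact ⟨⟨hsub hp.1.1, hp.1.2⟩, hsub hp.2⟩
    have h2 : theta d n q ≤ Pr q (zE d (box d n)) (fun F =>
        ∃ x ∈ (box d N).filter (fun x => x ∈ box d n ∧ ∃ i, |x i| = n), Conn F 0 x) := by
      refine Pr_mono h0 h1 fun F _ hF => ?_
      obtain ⟨x, hx, hi, hc⟩ := hF
      exact ⟨x, Finset.mem_filter.2 ⟨hsub hx, hx, hi⟩, hc⟩
    refine h2.trans ((Pr_exists_le h0 h1 _ _ _).trans (Finset.sum_le_sum fun x _ => ?_))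
    refine Pr_le_of_map h0 h1 id (Set.injOn_id _) (by simpa using hE) _ _ (inc_conn _ _) ?_
    intro F _ hc
    simpa using hc
  refine (Finset.sum_le_sum hθ).trans ?_
  rw [← Finset.sum_biUnion]
  · refine Finset.sum_le_sum_of_subset_of_nonneg ?_ fun _ _ _ => hPn _
    intro x hx
    rw [Finset.mem_biUnion] at hx
    obtain ⟨n, -, hx⟩ := hx
    exact (Finset.mem_filter.1 hx).1
  · intro m _ n _ hmn
    rw [Function.onFun, Finset.disjoint_left]
    intro x hx hx'
    rw [Finset.mem_filter] at hx hx'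
    obtain ⟨-, hm, i, hi⟩ := hx
    obtain ⟨-, hn, j, hj⟩ := hx'
    have h2 := PC_mem_box.1 hn i
    have h3 := PC_mem_box.1 hm j
    apply hmn
    have : (m : ℤ) = n := by omega
    exact_mod_cast this

theorem pcrit_eq_of (h : pc d < 1)
    (hprob : ∀ p : ℝ, 0 ≤ p → p ≤ 1 → IsProbabilityMeasure (law d p))
    (hopn : ∀ p : ℝ, 0 ≤ p → p ≤ 1 → ∀ (Λ : Finset (Fin d → ℤ)) (A : Finset (Sym2 (Fin d → ℤ)) → Prop),
      law d p {ω | A (opn ω (zE d Λ))} = ENNReal.ofReal (Pr (1 - p) (zE d Λ) A) ∧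
      MeasurableSet {ω : Env d | A (opn ω (zE d Λ))})
    (hθ : ∀ q : ℝ, pc d < q → q < 1 → ∃ c : ℝ, 0 < c ∧ ∀ n, 1 ≤ n → c ≤ theta d n q) :
    pcrit d = pc d := by
  have hpc0 := S2_pc_nonneg d
  have hC : ∀ n, PC_C d n = {ω : Env d | PC_ev d n (opn ω (zE d (box d n)))} := by
    intro n
    ext ω
    rw [Set.mem_ofPred_eq, PC_ev_iff]
  have hmeas : ∀ n, MeasurableSet (PC_C d n) := fun n => by
    rw [hC]
    exact (hopn 0 le_rfl zero_le_one _ _).2
  have hlaw : ∀ r : ℝ, 0 ≤ r → r ≤ 1 → ∀ n, law d (1 - r) (PC_C d n) = ENNReal.ofReal (theta d n r) := by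
    intro r hr0 hr1 n
    rw [hC, (hopn (1 - r) (by linarith) (by linarith) _ _).1, sub_sub_cancel]
    rfl
  -- above pc
  have hup : ∀ r : ℝ, pc d < r → r < 1 → 0 < law d (1 - r) {ω : Env d | (zcl ω).Infinite} := by
    intro r hr hr1
    obtain ⟨c, hc, hcn⟩ := hθ r hr hr1
    have := hprob (1 - r) (by linarith) (by linarith)
    have ht : Tendsto (fun n => law d (1 - r) (PC_C d n)) atTop (𝓝 (law d (1 - r) (⋂ n, PC_C d n))) :=
      tendsto_measure_iInter_atTop (fun n => (hmeas n).nullMeasurableSet) PC_anti ⟨0, measure_ne_top _ _⟩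
    rw [PC_infinite]
    refine lt_of_lt_of_le (ENNReal.ofReal_pos.2 hc) (ge_of_tendsto ht ?_)
    filter_upwards [eventually_ge_atTop 1] with n hn
    rw [hlaw r (hpc0.trans hr.le) hr1.le]
    exact ENNReal.ofReal_le_ofReal (hcn n hn)
  -- below pc
  have hlow : ∀ r : ℝ, 0 ≤ r → r < pc d → law d (1 - r) {ω : Env d | (zcl ω).Infinite} = 0 := by
    intro r hr0 hr
    have hr1 : r ≤ 1 := hr.le.trans h.le
    obtain ⟨X, hX⟩ := PC_sum hr0 hr
    have := hprob (1 - r) (by linarith) (by linarith)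
    set m := (law d (1 - r) {ω : Env d | (zcl ω).Infinite}).toReal with hm
    have hmn : ∀ n, m ≤ theta d n r := by
      intro n
      have h2 : law d (1 - r) {ω : Env d | (zcl ω).Infinite} ≤ ENNReal.ofReal (theta d n r) := by
        rw [← hlaw r hr0 hr1, PC_infinite]
        exact measure_mono (Set.iInter_subset _ n)
      rw [hm]
      exact ENNReal.toReal_le_of_le_ofReal (PC_theta_nonneg hr0 hr1 n) h2
    have hN : ∀ N : ℕ, N * m ≤ X := by
      intro N
      refine le_trans ?_ (hX N)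
      have h3 : ∑ n ∈ Finset.Icc 1 N, m ≤ ∑ n ∈ Finset.Icc 1 N, theta d n r :=
        Finset.sum_le_sum fun n _ => hmn n
      simpa using h3
    have hm0 : m ≤ 0 := by
      by_contra hpos
      rw [not_le] at hpos
      obtain ⟨N, hNN⟩ := exists_nat_gt (X / m)
      rw [div_lt_iff₀ hpos] at hNN
      linarith [hN N]
    have hm1 : m = 0 := le_antisymm hm0 ENNReal.toReal_nonneg
    rw [hm, ENNReal.toReal_eq_zero_iff] at hm1
    rcases hm1 with hm1 | hm1
    · exact hm1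
    · exact absurd hm1 (measure_ne_top _ _)
  have hbdd : BddBelow {r : ℝ | 0 ≤ r ∧ r ≤ 1 ∧ 0 < law d (1 - r) {ω | (zcl ω).Infinite}} :=
    ⟨0, fun _ hx => hx.1⟩
  unfold pcrit
  apply le_antisymm
  · by_contra hcon
    rw [not_le] at hcon
    obtain ⟨r, hr1, hr2⟩ := exists_between (lt_min hcon h)
    have hr3 : r < 1 := hr2.trans_le (min_le_right _ _)
    have : sInf {r : ℝ | 0 ≤ r ∧ r ≤ 1 ∧ 0 < law d (1 - r) {ω | (zcl ω).Infinite}} ≤ r :=
      csInf_le hbdd ⟨hpc0.trans hr1.le, hr3.le, hup r hr1 hr3⟩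
    exact absurd (hr2.trans_le (min_le_left _ _)) (not_lt.2 this)
  · refine le_csInf ?_ ?_
    · obtain ⟨r, hr1, hr2⟩ := exists_between h
      exact ⟨r, hpc0.trans hr1.le, hr2.le, hup r hr1 hr2⟩
    · rintro r ⟨hr0, -, hr2⟩
      by_contra hcon
      rw [not_le] at hcon
      exact absurd (hlow r hr0 hcon) hr2.ne'

end PC

end Pool.Agent.helper66.LE
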