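import Pool.Agent.helper66.LE.TI

/-!
# Simon-Lieb inequality on a finite group
-/

open Finset Classical

namespace Pool.Agent.helper66.LE

section S1
variable {G : Type*} [AddCommGroup G] [Fintype G] {q : ℝ} {S : Finset G}

theorem S1_point (h0 : 0 ≤ q) (h1 : q ≤ 1) (hS : ∀ s ∈ S, -s ∈ S) (A : Finset G) (hA : 0 ∈ A) {x : G}
    (hx : x ∉ A) :
    tau q S x ≤ ∑ p ∈ (A ×ˢ S).filter (fun p => p.1 + p.2 ∉ A),
      (q * Pr q ((cay S).filter fun e => ∀ a ∈ e, a ∈ A) (fun F => Conn F 0 p.1)) *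
        tau q S (x - (p.1 + p.2)) := by
  have h2 : tau q S x ≤ Pr q (cay S) (fun F => ∃ p ∈ (A ×ˢ S).filter (fun p => p.1 + p.2 ∉ A),
      Dis (fun F => s(p.1, p.1 + p.2) ∈ F ∧ Conn (F.filter fun e => ∀ a ∈ e, a ∈ A) 0 p.1)
        (fun F => Conn F (p.1 + p.2) x) F) := by
    refine Pr_mono h0 h1 fun F hF h => ?_
    obtain ⟨u, hu, w, hw, he, F₁, F₂, hF₁, hF₂, hdis, he1, he2, hin, hc1, hc2⟩ :=
      conn_exit (A : Set G) h (by exact_mod_cast hA) (by exact_mod_cast hx)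
    have hwu : w - u ∈ S := (mem_cay hS _ _).1 (hF he)
    have huw : u + (w - u) = w := by abel
    refine ⟨(u, w - u), ?_, ?_⟩
    · rw [Finset.mem_filter, Finset.mem_product]
      exact ⟨⟨by exact_mod_cast hu, hwu⟩, by simpa only [huw] using (by exact_mod_cast hw : w ∉ A)⟩
    · refine ⟨insert s(u, w) F₁, F₂, ?_, hF₂, ?_, ?_, ?_⟩
      · exact Finset.insert_subset he hF₁
      · rw [Finset.disjoint_insert_left]
        exact ⟨he2, hdis⟩
      · refine ⟨?_, ?_⟩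
        · simp only [huw]
          exact Finset.mem_insert_self _ _
        · refine hc1.mono fun a ha => ?_
          rw [Finset.mem_filter]
          exact ⟨Finset.mem_insert_of_mem ha, fun b hb => by exact_mod_cast hin a ha b hb⟩
      · simpa only [huw] using hc2
  refine h2.trans ((Pr_exists_le h0 h1 _ _ _).trans ?_)
  refine Finset.sum_le_sum fun p hp => ?_
  rw [Finset.mem_filter, Finset.mem_product] at hp
  obtain ⟨⟨hpA, hpS⟩, hpn⟩ := hp
  have hI1 : Inc (fun F : Finset (Sym2 G) => s(p.1, p.1 + p.2) ∈ F ∧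
      Conn (F.filter fun e => ∀ a ∈ e, a ∈ A) 0 p.1) := fun F F' hFF h =>
    ⟨hFF h.1, h.2.mono (Finset.filter_subset_filter _ hFF)⟩
  refine (bk h0 h1 _ hI1 (inc_conn _ _)).trans ?_
  rw [tau_sub]
  refine mul_le_mul_of_nonneg_right (le_of_eq ?_) (tau_nonneg h0 h1 _ _)
  have he : s(p.1, p.1 + p.2) ∈ cay S := (mem_cay hS _ _).2 (by simpa using hpS)
  have h4 : Pr q (cay S) (fun F => s(p.1, p.1 + p.2) ∈ F ∧ Conn (F.filter fun e => ∀ a ∈ e, a ∈ A) 0 p.1) =
      Ex q (cay S) (fun F => if s(p.1, p.1 + p.2) ∈ F then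
        (fun F : Finset (Sym2 G) => if Conn (F.filter fun e => ∀ a ∈ e, a ∈ A) 0 p.1 then (1 : ℝ) else 0)
          (F.erase s(p.1, p.1 + p.2)) else 0) := by
    refine Ex_congr fun F _ => ?_
    have hf : (F.erase s(p.1, p.1 + p.2)).filter (fun e => ∀ a ∈ e, a ∈ A) =
        F.filter fun e => ∀ a ∈ e, a ∈ A := by
      ext a
      rw [Finset.mem_filter, Finset.mem_filter, Finset.mem_erase]
      constructor
      · rintro ⟨⟨-, h⟩, h'⟩
        exact ⟨h, h'⟩
      · rintro ⟨h, h'⟩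
        refine ⟨⟨?_, h⟩, h'⟩
        rintro rfl
        exact hpn (h' _ (Sym2.mem_mk_right _ _))
    simp only [hf]
    by_cases h : s(p.1, p.1 + p.2) ∈ F <;>
      by_cases h' : Conn (F.filter fun e => ∀ a ∈ e, a ∈ A) 0 p.1 <;> simp [h, h']
  have h6 := Ex_open he q (fun F : Finset (Sym2 G) =>
    if Conn (F.filter fun e => ∀ a ∈ e, a ∈ A) 0 p.1 then (1 : ℝ) else 0)
  refine h4.trans (h6.trans ?_)
  congr 1
  have h5 : Ex q (cay S) (fun F => (fun F : Finset (Sym2 G) =>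
        if Conn (F.filter fun e => ∀ a ∈ e, a ∈ A) 0 p.1 then (1 : ℝ) else 0)
          (F.erase s(p.1, p.1 + p.2))) =
      Ex q (cay S) (fun F => (fun F : Finset (Sym2 G) => if Conn F 0 p.1 then (1 : ℝ) else 0)
        (F ∩ (cay S).filter fun e => ∀ a ∈ e, a ∈ A)) := by
    refine Ex_congr fun F hF => ?_
    have hf : (F.erase s(p.1, p.1 + p.2)).filter (fun e => ∀ a ∈ e, a ∈ A) =
        F ∩ (cay S).filter fun e => ∀ a ∈ e, a ∈ A := by
      ext a
      rw [Finset.mem_filter, Finset.mem_inter, Finset.mem_filter, Finset.mem_erase]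
      constructor
      · rintro ⟨⟨-, h⟩, h'⟩
        exact ⟨h, hF h, h'⟩
      · rintro ⟨h, -, h'⟩
        refine ⟨⟨?_, h⟩, h'⟩
        rintro rfl
        exact hpn (h' _ (Sym2.mem_mk_right _ _))
    simp only [hf]
  have h7 := Ex_inter (E := cay S) (E' := (cay S).filter fun e => ∀ a ∈ e, a ∈ A) (Finset.filter_subset _ _) q
    (fun F : Finset (Sym2 G) => if Conn F 0 p.1 then (1 : ℝ) else 0)
  exact h5.trans h7

theorem simon_lieb (h0 : 0 ≤ q) (h1 : q ≤ 1) (hS : ∀ s ∈ S, -s ∈ S) (A : Finset G) (hA : 0 ∈ A) :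
    ∑ x, tau q S x ≤ A.card + (∑ y ∈ A, ∑ s ∈ S, if y + s ∉ A then
      q * Pr q ((cay S).filter fun e => ∀ a ∈ e, a ∈ A) (fun F => Conn F 0 y) else 0) *
        ∑ x, tau q S x := by
  set P : G → ℝ := fun y => q * Pr q ((cay S).filter fun e => ∀ a ∈ e, a ∈ A) (fun F => Conn F 0 y) with hP
  have hPn : ∀ y, 0 ≤ P y := fun y => mul_nonneg h0 (Pr_nonneg h0 h1 _ _)
  have hpt : ∀ x, tau q S x ≤ (if x ∈ A then (1 : ℝ) else 0) +
      ∑ p ∈ (A ×ˢ S).filter (fun p => p.1 + p.2 ∉ A), P p.1 * tau q S (x - (p.1 + p.2)) := by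
    intro x
    by_cases hx : x ∈ A
    · rw [if_pos hx]
      have := tau_le_one h0 h1 S x
      have h2 : 0 ≤ ∑ p ∈ (A ×ˢ S).filter (fun p => p.1 + p.2 ∉ A), P p.1 * tau q S (x - (p.1 + p.2)) :=
        Finset.sum_nonneg fun p _ => mul_nonneg (hPn _) (tau_nonneg h0 h1 _ _)
      linarith
    · rw [if_neg hx, zero_add]
      exact S1_point h0 h1 hS A hA hx
  refine (Finset.sum_le_sum fun x _ => hpt x).trans (le_of_eq ?_)
  rw [Finset.sum_add_distrib, Finset.sum_comm]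
  congr 1
  · simp
  · rw [Finset.sum_mul]
    have h3 : ∀ p ∈ (A ×ˢ S).filter (fun p => p.1 + p.2 ∉ A),
        ∑ x, P p.1 * tau q S (x - (p.1 + p.2)) = P p.1 * ∑ x, tau q S x := by
      intro p _
      rw [← Finset.mul_sum]
      congr 1
      exact (Equiv.subRight (p.1 + p.2)).sum_comp (fun x => tau q S x)
    rw [Finset.sum_congr rfl h3, Finset.sum_filter, Finset.sum_product]
    refine Finset.sum_congr rfl fun y _ => ?_
    rw [Finset.sum_mul]
    refine Finset.sum_congr rfl fun s _ => ?_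
    by_cases h : y + s ∉ A
    · rw [if_pos h, if_pos h]
    · rw [if_neg h, if_neg h, zero_mul]

end S1

end Pool.Agent.helper66.LE
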