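import Pool.Agent.helper57.LE.S1

/-!
# Boundedness of the susceptibility of the torus below `pc`
-/

open Finset Classical

namespace Pool.Agent.helper66.LE

section S2

theorem phi_mono (d : ℕ) (Λ : Finset (Fin d → ℤ)) {q q' : ℝ} (h0 : 0 ≤ q) (h : q ≤ q') (h1 : q' ≤ 1) :
    phi d q Λ ≤ phi d q' Λ := by
  unfold phi
  refine Finset.sum_le_sum fun x _ => Finset.sum_le_sum fun s _ => ?_
  by_cases hs : x + s ∉ Λ
  · rw [if_pos hs, if_pos hs]
    exact mul_le_mul h (Pr_mono_q _ (inc_conn _ _) h0 h h1) (Pr_nonneg h0 (h.trans h1) _ _) (h0.trans h)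
  · rw [if_neg hs, if_neg hs]

theorem S2_bdd (d : ℕ) :
    BddAbove {q : ℝ | 0 ≤ q ∧ q ≤ 1 ∧ ∃ Λ : Finset (Fin d → ℤ), 0 ∈ Λ ∧ phi d q Λ < 1} :=
  ⟨1, fun _ hx => hx.2.1⟩

theorem S2_card_uv (d : ℕ) (R : Type*) [Ring R] : (uv d R).card ≤ 2 * d := by
  unfold uv
  refine Finset.card_image_le.trans ?_
  simp [mul_comm]

theorem S2_pc_nonneg (d : ℕ) : 0 ≤ pc d := Real.sSup_nonneg fun _ hx => hx.1

theorem pc_pos {d : ℕ} (hd : 1 ≤ d) : 0 < pc d := by
  have hd' : (1 : ℝ) ≤ d := by exact_mod_cast hd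
  have hq0 : (0 : ℝ) < 1 / (4 * d) := by positivity
  have hq1 : (1 : ℝ) / (4 * d) ≤ 1 := by
    rw [div_le_one (by positivity)]
    linarith
  refine lt_of_lt_of_le hq0 (le_csSup (S2_bdd d) ⟨hq0.le, hq1, {0}, Finset.mem_singleton_self _, ?_⟩)
  unfold phi
  rw [Finset.sum_singleton]
  have h : ∀ s ∈ uv d ℤ, (if (0 : Fin d → ℤ) + s ∉ ({0} : Finset (Fin d → ℤ)) then
      1 / (4 * (d : ℝ)) * Pr (1 / (4 * (d : ℝ))) (zE d {0}) (fun F => Conn F 0 0) else 0) ≤ 1 / (4 * (d : ℝ)) := by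
    intro s _
    split_ifs
    · exact hq0.le
    · exact mul_le_of_le_one_right hq0.le (Pr_le_one hq0.le hq1 _ _)
  refine lt_of_le_of_lt (Finset.sum_le_card_nsmul _ _ _ h) ?_
  rw [nsmul_eq_mul]
  have hc : ((uv d ℤ).card : ℝ) ≤ 2 * d := by exact_mod_cast S2_card_uv d ℤ
  have h2 : ((uv d ℤ).card : ℝ) * (1 / (4 * d)) ≤ (2 * d) * (1 / (4 * d)) :=
    mul_le_mul_of_nonneg_right hc hq0.le
  have h3 : (2 * (d : ℝ)) * (1 / (4 * d)) = 1 / 2 := by
    field_simp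
    norm_num
  linarith

theorem pc_le_one (d : ℕ) : pc d ≤ 1 := Real.sSup_le (fun _ hx => hx.2.1) zero_le_one

theorem exists_phi_lt {d : ℕ} {q : ℝ} (h0 : 0 ≤ q) (h : q < pc d) :
    ∃ Λ : Finset (Fin d → ℤ), 0 ∈ Λ ∧ phi d q Λ < 1 := by
  have hne : {q : ℝ | 0 ≤ q ∧ q ≤ 1 ∧ ∃ Λ : Finset (Fin d → ℤ), 0 ∈ Λ ∧ phi d q Λ < 1}.Nonempty := by
    by_contra hcon
    rw [Set.not_nonempty_iff_eq_empty] at hcon
    have : pc d = 0 := by
      unfold pc
      rw [hcon, Real.sSup_empty]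
    linarith
  obtain ⟨q', ⟨_, h1', Λ, hΛ, hphi⟩, hlt⟩ := exists_lt_of_lt_csSup hne h
  exact ⟨Λ, hΛ, (phi_mono d Λ h0 hlt.le h1').trans_lt hphi⟩

theorem one_le_phi {d : ℕ} {q : ℝ} (h : pc d < q) (h1 : q ≤ 1) {Λ : Finset (Fin d → ℤ)} (h0 : 0 ∈ Λ) :
    1 ≤ phi d q Λ := by
  by_contra hcon
  rw [not_le] at hcon
  have : q ≤ pc d := le_csSup (S2_bdd d) ⟨(S2_pc_nonneg d).trans h.le, h1, Λ, h0, hcon⟩
  linarith

/-- reduction modulo `L`. -/
def S2_red (d L : ℕ) (x : Fin d → ℤ) : Tor d L := fun i => ((x i : ℤ) : ZMod L)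

theorem S2_red_add (d L : ℕ) (x y : Fin d → ℤ) : S2_red d L (x + y) = S2_red d L x + S2_red d L y := by
  funext i
  simp [S2_red]

theorem S2_red_sub (d L : ℕ) (x y : Fin d → ℤ) : S2_red d L (x - y) = S2_red d L x - S2_red d L y := by
  funext i
  simp [S2_red]

theorem S2_red_zero (d L : ℕ) : S2_red d L 0 = 0 := by
  funext i
  simp [S2_red]

theorem S2_inj (d : ℕ) (B : Finset (Fin d → ℤ)) :
    ∃ L₁ : ℕ, ∀ L ≥ L₁, Set.InjOn (S2_red d L) B := by
  refine ⟨(∑ x ∈ B, ∑ y ∈ B, ∑ i, (x i - y i).natAbs) + 1, fun L hL x hx y hy hxy => ?_⟩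
  funext i
  have h1 := congrFun hxy i
  simp only [S2_red] at h1
  rw [ZMod.intCast_eq_intCast_iff_dvd_sub] at h1
  have h2 : (x i - y i).natAbs < L := by
    have h3 : (x i - y i).natAbs ≤ ∑ i, (x i - y i).natAbs :=
      Finset.single_le_sum (f := fun i => (x i - y i).natAbs) (fun _ _ => Nat.zero_le _) (Finset.mem_univ i)
    have h4 : ∑ i, (x i - y i).natAbs ≤ ∑ y ∈ B, ∑ i, (x i - y i).natAbs :=
      Finset.single_le_sum (f := fun y : Fin d → ℤ => ∑ i, (x i - y i).natAbs) (fun _ _ => Nat.zero_le _)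
        (by exact_mod_cast hy)
    have h5 : ∑ y ∈ B, ∑ i, (x i - y i).natAbs ≤ ∑ x ∈ B, ∑ y ∈ B, ∑ i, (x i - y i).natAbs :=
      Finset.single_le_sum (f := fun x : Fin d → ℤ => ∑ y ∈ B, ∑ i, (x i - y i).natAbs)
        (fun _ _ => Nat.zero_le _) (by exact_mod_cast hx)
    omega
  by_contra hne
  have h6 : (L : ℤ).natAbs ≤ (y i - x i).natAbs :=
    Nat.le_of_dvd (Int.natAbs_pos.2 (sub_ne_zero.2 (Ne.symm hne))) (Int.natAbs_dvd_natAbs.2 h1)
  omega

theorem S2_uv (d L : ℕ) : uv d (ZMod L) = (uv d ℤ).image (S2_red d L) := by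
  ext x
  rw [mem_uv, Finset.mem_image]
  constructor
  · rintro ⟨i, rfl | rfl⟩
    · refine ⟨Pi.single i 1, (mem_uv _ _ _).2 ⟨i, Or.inl rfl⟩, ?_⟩
      funext j
      by_cases h : j = i
      · subst h; simp [S2_red]
      · simp [S2_red, Pi.single_eq_of_ne h]
    · refine ⟨Pi.single i (-1), (mem_uv _ _ _).2 ⟨i, Or.inr rfl⟩, ?_⟩
      funext j
      by_cases h : j = i
      · subst h; simp [S2_red]
      · simp [S2_red, Pi.single_eq_of_ne h]
  · rintro ⟨y, hy, rfl⟩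
    obtain ⟨i, rfl | rfl⟩ := (mem_uv _ _ _).1 hy
    · refine ⟨i, Or.inl ?_⟩
      funext j
      by_cases h : j = i
      · subst h; simp [S2_red]
      · simp [S2_red, Pi.single_eq_of_ne h]
    · refine ⟨i, Or.inr ?_⟩
      funext j
      by_cases h : j = i
      · subst h; simp [S2_red]
      · simp [S2_red, Pi.single_eq_of_ne h]

theorem chi_bdd {d : ℕ} {q : ℝ} (h0 : 0 ≤ q) (h : q < pc d) :
    ∃ (X : ℝ) (L₁ : ℕ), ∀ L ≥ L₁, ∀ [NeZero L], chi d L q ≤ X := by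
  have h1 : q ≤ 1 := h.le.trans (pc_le_one d)
  obtain ⟨Λ, hΛ, hphi⟩ := exists_phi_lt h0 h
  obtain ⟨L₁, hL₁⟩ := S2_inj d (Λ ∪ (Λ ×ˢ uv d ℤ).image (fun p => p.1 + p.2) ∪ uv d ℤ)
  refine ⟨Λ.card / (1 - phi d q Λ), L₁, fun L hL _ => ?_⟩
  have hinj := hL₁ L hL
  set B := Λ ∪ (Λ ×ˢ uv d ℤ).image (fun p => p.1 + p.2) ∪ uv d ℤ with hB
  have hB1 : ∀ x ∈ Λ, x ∈ B := fun x hx => by
    rw [hB, Finset.mem_union, Finset.mem_union]
    exact Or.inl (Or.inl hx)
  have hB2 : ∀ x ∈ Λ, ∀ s ∈ uv d ℤ, x + s ∈ B := fun x hx s hs => by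
    rw [hB, Finset.mem_union, Finset.mem_union]
    exact Or.inl (Or.inr (Finset.mem_image.2 ⟨(x, s), Finset.mem_product.2 ⟨hx, hs⟩, rfl⟩))
  have hB3 : ∀ s ∈ uv d ℤ, s ∈ B := fun s hs => by
    rw [hB, Finset.mem_union]
    exact Or.inr hs
  set A : Finset (Tor d L) := Λ.image (S2_red d L) with hA
  have h0A : (0 : Tor d L) ∈ A := Finset.mem_image.2 ⟨0, hΛ, S2_red_zero d L⟩
  have hsl : chi d L q ≤ A.card + (∑ y ∈ A, ∑ s ∈ uv d (ZMod L), if y + s ∉ A then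
      q * Pr q ((cay (uv d (ZMod L))).filter fun e => ∀ a ∈ e, a ∈ A) (fun F => Conn F 0 y) else 0) *
        chi d L q := by
    have h := simon_lieb (q := q) h0 h1 (uv_neg d (ZMod L)) A h0A
    unfold chi tt
    convert h
  -- the inverse of the reduction
  set ψ : Tor d L → (Fin d → ℤ) := Function.invFunOn (S2_red d L) (Λ : Set (Fin d → ℤ)) with hψ
  have hψ1 : ∀ x ∈ Λ, ψ (S2_red d L x) = x := by
    intro x hx
    have hex : ∃ a ∈ (Λ : Set (Fin d → ℤ)), S2_red d L a = S2_red d L x := ⟨x, by exact_mod_cast hx, rfl⟩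
    have e1 : S2_red d L (ψ (S2_red d L x)) = S2_red d L x := Function.invFunOn_eq hex
    have e2 : ψ (S2_red d L x) ∈ (Λ : Set (Fin d → ℤ)) := Function.invFunOn_mem hex
    exact hinj (by exact_mod_cast hB1 _ (by exact_mod_cast e2)) (by exact_mod_cast hB1 _ hx) e1
  have hψinj : ∀ a ∈ A, ∀ b ∈ A, ψ a = ψ b → a = b := by
    intro a ha b hb hab
    obtain ⟨x, hx, rfl⟩ := Finset.mem_image.1 ha
    obtain ⟨y, hy, rfl⟩ := Finset.mem_image.1 hb
    rw [hψ1 x hx, hψ1 y hy] at hab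
    rw [hab]
  have hPr : ∀ x ∈ Λ, Pr q ((cay (uv d (ZMod L))).filter fun e => ∀ a ∈ e, a ∈ A)
      (fun F => Conn F 0 (S2_red d L x)) ≤ Pr q (zE d Λ) (fun F => Conn F 0 x) := by
    intro x hx
    refine Pr_le_of_map h0 h1 (Sym2.map ψ) ?_ ?_ _ _ (inc_conn _ _) ?_
    · intro e he f hf hef
      rw [Finset.mem_coe, Finset.mem_filter] at he hf
      induction e using Sym2.ind with
      | _ a b =>
        induction f using Sym2.ind with
        | _ a' b' =>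
          have ha := he.2 a (Sym2.mem_mk_left _ _)
          have hb := he.2 b (Sym2.mem_mk_right _ _)
          have ha' := hf.2 a' (Sym2.mem_mk_left _ _)
          have hb' := hf.2 b' (Sym2.mem_mk_right _ _)
          rw [Sym2.map_mk, Sym2.map_mk, Sym2.eq_iff] at hef
          rw [Sym2.eq_iff]
          rcases hef with ⟨e1, e2⟩ | ⟨e1, e2⟩
          · exact Or.inl ⟨hψinj _ ha _ ha' e1, hψinj _ hb _ hb' e2⟩
          · exact Or.inr ⟨hψinj _ ha _ hb' e1, hψinj _ hb _ ha' e2⟩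
    · intro e he
      obtain ⟨f, hf, rfl⟩ := Finset.mem_image.1 he
      rw [Finset.mem_filter] at hf
      induction f using Sym2.ind with
      | _ a b =>
        have ha := hf.2 a (Sym2.mem_mk_left _ _)
        have hb := hf.2 b (Sym2.mem_mk_right _ _)
        have hab := (mem_cay (uv_neg d (ZMod L)) _ _).1 hf.1
        obtain ⟨y, hy, rfl⟩ := Finset.mem_image.1 ha
        obtain ⟨z, hz, rfl⟩ := Finset.mem_image.1 hb
        rw [S2_uv, Finset.mem_image] at hab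
        obtain ⟨s, hs, hsz⟩ := hab
        have hzy : y + s = z := by
          refine hinj (by exact_mod_cast hB2 y hy s hs) (by exact_mod_cast hB1 z hz) ?_
          rw [S2_red_add, hsz]
          abel
        rw [Sym2.map_mk, hψ1 y hy, hψ1 z hz]
        unfold zE
        refine Finset.mem_image.2 ⟨(y, s), ?_, by simp only [hzy]⟩
        rw [Finset.mem_filter, Finset.mem_product]
        exact ⟨⟨hy, hs⟩, by simpa only [hzy] using hz⟩
    · intro F _ hc
      have h2 := Conn.image ψ hc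
      rw [hψ1 x hx] at h2
      have h3 : ψ 0 = 0 := by
        rw [← S2_red_zero d L, hψ1 0 hΛ]
      rw [h3] at h2
      exact h2
  have hΦ : (∑ y ∈ A, ∑ s ∈ uv d (ZMod L), if y + s ∉ A then
      q * Pr q ((cay (uv d (ZMod L))).filter fun e => ∀ a ∈ e, a ∈ A) (fun F => Conn F 0 y) else 0) ≤
      phi d q Λ := by
    rw [hA, Finset.sum_image (fun x hx y hy hxy => hinj (by exact_mod_cast hB1 x (by exact_mod_cast hx))
      (by exact_mod_cast hB1 y (by exact_mod_cast hy)) hxy), ← hA]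
    unfold phi
    refine Finset.sum_le_sum fun x hx => ?_
    have hcongr : ∀ f : Tor d L → ℝ, ∑ s ∈ uv d (ZMod L), f s = ∑ s ∈ (uv d ℤ).image (S2_red d L), f s := by
      intro f
      refine Finset.sum_congr ?_ fun _ _ => rfl
      rw [S2_uv]
    rw [hcongr, Finset.sum_image (fun x hx y hy hxy => hinj (by exact_mod_cast hB3 x (by exact_mod_cast hx))
      (by exact_mod_cast hB3 y (by exact_mod_cast hy)) hxy)]
    refine Finset.sum_le_sum fun s hs => ?_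
    by_cases hn : S2_red d L x + S2_red d L s ∉ A
    · rw [if_pos hn]
      have hn' : x + s ∉ Λ := fun hc => hn (by
        rw [← S2_red_add]
        exact Finset.mem_image_of_mem _ hc)
      rw [if_pos hn']
      exact mul_le_mul_of_nonneg_left (hPr x hx) h0
    · rw [if_neg hn]
      split_ifs
      · exact le_rfl
      · exact mul_nonneg h0 (Pr_nonneg h0 h1 _ _)
  have hcard : (A.card : ℝ) ≤ Λ.card := by exact_mod_cast Finset.card_image_le
  have hchi0 : 0 ≤ chi d L q := zero_le_one.trans (one_le_chi h0 h1)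
  have h2 := mul_le_mul_of_nonneg_right hΦ hchi0
  rw [le_div_iff₀ (by linarith)]
  nlinarith

end S2

end Pool.Agent.helper66.LE
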