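import Pool.Agent.helper12.LE.StmL

set_option autoImplicit false

namespace Pool.Agent.LE

theorem SHC_aux (p : ℕ) (hp : 1 ≤ p) (r : ℕ) :
    ∏ i ∈ Finset.range (r + 1), (p ^ (i + 1) - 1) ≤ (p - 1) * p ^ (∑ i ∈ Finset.range r, (i + 2)) := by
  induction r with
  | zero => simp
  | succ r ih =>
    rw [Finset.prod_range_succ, Finset.sum_range_succ]
    have h1 : (p - 1) * p ^ (∑ x ∈ Finset.range r, (x + 2) + (r + 2)) =
        ((p - 1) * p ^ (∑ x ∈ Finset.range r, (x + 2))) * p ^ (r + 2) := by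
      rw [pow_add, mul_assoc]
    rw [h1]
    exact Nat.mul_le_mul ih (Nat.sub_le _ _)

theorem SHC_sum (r : ℕ) : 2 * ∑ i ∈ Finset.range r, (i + 2) = r * (r + 3) := by
  induction r with
  | zero => simp
  | succ r ih =>
    rw [Finset.sum_range_succ, mul_add, ih]
    ring

theorem SHC : SHC_stmt := by
  intro p r j hp hr hj
  obtain ⟨s, rfl⟩ : ∃ s, r = s + 1 := ⟨r - 1, by omega⟩
  refine (SHC_aux p hp.one_lt.le s).trans ?_
  refine Nat.mul_le_mul_left _ (Nat.pow_le_pow_right hp.pos ?_)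
  have h1 := SHC_sum s
  have h2 : (s + 1) * (s + 1 + 1) = s * (s + 3) + 2 := by ring
  omega

end Pool.Agent.LE
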